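import Pool.Agent.R3B.StmtsB

/-!
# R3B, row LPB: the Laplacian of `f(|x|)/|x|`, all test functions
-/

set_option autoImplicit false

namespace Pool.Agent.R3B.H52

open Set Filter Topology MeasureTheory InnerProductSpace
open scoped InnerProductSpace ENNReal
open Pool.Agent.BE01F Pool.Agent.R3B

theorem bl_ball (ℓ : ℝ) : Bl ℓ = Metric.ball (0 : E 3) ℓ := by
  ext x
  simp [Bl]

theorem bl_meas (ℓ : ℝ) : MeasurableSet (Bl ℓ) := by
  rw [bl_ball]
  exact measurableSet_ball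

theorem int_sq (ℓ K : ℝ) : Integrable (fun x : E 3 => K * (‖x‖ ^ 2)⁻¹) (vol (Bl ℓ)) := by
  refine Integrable.const_mul ?_ K
  have h : IntegrableOn (fun x : E 3 => (fun r : ℝ => (r ^ 2)⁻¹) ‖x‖)
      (Metric.ball (0 : E 3) ℓ) volume := by
    refine (integrableOn_fun_norm_addHaar (E := E 3) volume
      (f := fun r : ℝ => (r ^ 2)⁻¹) (r := ℓ)).2 ?_
    have hf : Module.finrank ℝ (E 3) = 3 := by simp
    rw [hf]
    have h1 : IntegrableOn (fun _ : ℝ => (1 : ℝ)) (Ioo 0 ℓ) volume := by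
      simp
    refine h1.congr_fun ?_ measurableSet_Ioo
    intro r hr
    have h2 : r ^ 2 ≠ 0 := pow_ne_zero 2 hr.1.ne'
    show (1 : ℝ) = r ^ (3 - 1) • (r ^ 2)⁻¹
    rw [smul_eq_mul]
    exact (mul_inv_cancel₀ h2).symm
  rw [← bl_ball] at h
  exact h

/-- the cut-off function of one variable -/
noncomputable def th (t : ℝ) : ℝ := Real.smoothTransition (t - 1)

theorem th_zero {t : ℝ} (h : t ≤ 1) : th t = 0 :=
  Real.smoothTransition.zero_of_nonpos (by linarith)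

theorem th_one {t : ℝ} (h : 2 ≤ t) : th t = 1 :=
  Real.smoothTransition.one_of_one_le (by linarith)

theorem th_smooth : ContDiff ℝ ((⊤ : ℕ∞) : WithTop ℕ∞) th :=
  Real.smoothTransition.contDiff.comp (contDiff_id.sub contDiff_const)

theorem th_abs (t : ℝ) : |th t| ≤ 1 := by
  show |Real.smoothTransition (t - 1)| ≤ 1
  rw [abs_of_nonneg (Real.smoothTransition.nonneg _)]
  exact Real.smoothTransition.le_one _

theorem th_deriv {t : ℝ} (h : t < 1 ∨ 2 < t) : deriv th t = 0 := by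
  rcases h with h | h
  · have : th =ᶠ[𝓝 t] fun _ => (0 : ℝ) := by
      filter_upwards [Iio_mem_nhds h] with s hs
      exact th_zero (le_of_lt hs)
    rw [this.deriv_eq]
    exact deriv_const t 0
  · have : th =ᶠ[𝓝 t] fun _ => (1 : ℝ) := by
      filter_upwards [Ioi_mem_nhds h] with s hs
      exact th_one (le_of_lt hs)
    rw [this.deriv_eq]
    exact deriv_const t 1

theorem th_bd : ∃ M : ℝ, 0 ≤ M ∧ ∀ t, |deriv th t| ≤ M := by
  have hc : Continuous (deriv th) := th_smooth.continuous_deriv (by simp)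
  obtain ⟨M, hM⟩ := (isCompact_Icc (a := (1 : ℝ)) (b := 2)).exists_bound_of_continuousOn
    hc.continuousOn
  refine ⟨max M 0, le_max_right _ _, fun t => ?_⟩
  by_cases h : t < 1 ∨ 2 < t
  · rw [th_deriv h, abs_zero]
    exact le_max_right _ _
  · push Not at h
    exact (hM t ⟨h.1, h.2⟩).trans (le_max_left _ _)

/-- the cut-off functions -/
noncomputable def chi (n : ℕ) (x : E 3) : ℝ := th ((n : ℝ) ^ 2 * ‖x‖ ^ 2)

theorem chi_smooth (n : ℕ) : ContDiff ℝ ((⊤ : ℕ∞) : WithTop ℕ∞) (chi n) :=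
  th_smooth.comp (contDiff_const.mul (contDiff_norm_sq ℝ))

theorem chi_fd (n : ℕ) (x : E 3) : HasFDerivAt (chi n)
    (deriv th ((n : ℝ) ^ 2 * ‖x‖ ^ 2) • ((n : ℝ) ^ 2 • (2 • (innerSL ℝ x)))) x := by
  have h1 : HasFDerivAt (fun y : E 3 => (n : ℝ) ^ 2 * ‖y‖ ^ 2)
      ((n : ℝ) ^ 2 • (2 • (innerSL ℝ x))) x :=
    (hasStrictFDerivAt_norm_sq x).hasFDerivAt.const_mul _
  have h2 : HasDerivAt th (deriv th ((n : ℝ) ^ 2 * ‖x‖ ^ 2)) ((n : ℝ) ^ 2 * ‖x‖ ^ 2) :=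
    ((th_smooth.differentiable (by simp)).differentiableAt).hasDerivAt
  exact h2.comp_hasFDerivAt x h1

theorem chi_bd (M : ℝ) (hM0 : 0 ≤ M) (hM : ∀ t, |deriv th t| ≤ M) (n : ℕ) (x : E 3)
    (hx : x ≠ 0) : ‖fderiv ℝ (chi n) x‖ ≤ 4 * M * ‖x‖⁻¹ := by
  have hx0 : 0 < ‖x‖ := norm_pos_iff.2 hx
  rw [(chi_fd n x).fderiv]
  by_cases h : 2 < (n : ℝ) ^ 2 * ‖x‖ ^ 2
  · rw [th_deriv (Or.inr h), zero_smul, norm_zero]
    positivity
  · push Not at h
    have h1 : ‖(2 : ℕ) • innerSL ℝ x‖ ≤ 2 * ‖x‖ := by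
      rw [two_nsmul, two_mul]
      refine (norm_add_le _ _).trans ?_
      rw [innerSL_apply_norm]
    have h2 : ‖(n : ℝ) ^ 2 • ((2 : ℕ) • innerSL ℝ x)‖ ≤ (n : ℝ) ^ 2 * (2 * ‖x‖) := by
      rw [norm_smul, Real.norm_of_nonneg (by positivity)]
      exact mul_le_mul_of_nonneg_left h1 (by positivity)
    have h3 : (n : ℝ) ^ 2 * (2 * ‖x‖) ≤ 4 * ‖x‖⁻¹ := by
      rw [← div_eq_mul_inv, le_div_iff₀ hx0]
      nlinarith
    rw [norm_smul]
    calc ‖deriv th ((n : ℝ) ^ 2 * ‖x‖ ^ 2)‖ * ‖(n : ℝ) ^ 2 • ((2 : ℕ) • innerSL ℝ x)‖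
        ≤ M * (4 * ‖x‖⁻¹) := mul_le_mul (hM _) (h2.trans h3) (norm_nonneg _) hM0
      _ = 4 * M * ‖x‖⁻¹ := by ring

theorem inner_grad (v : E 3) (φ : E 3 → ℝ) (x : E 3) :
    ⟪v, gradient φ x⟫_ℝ = fderiv ℝ φ x v := by
  rw [real_inner_comm, gradient, InnerProductSpace.toDual_symm_apply]

theorem prim (ℓ : ℝ) (hℓ : 0 < ℓ) (g : ℝ → ℝ) (hg : ContinuousOn g (Icc 0 ℓ)) :
    ContinuousOn (fun r => ∫ ρ in (0 : ℝ)..r, g ρ) (Icc 0 ℓ) := by
  have h := intervalIntegral.continuousOn_primitive_interval (f := g) (μ := volume) (a := 0)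
    (b := ℓ) (by
      rw [uIcc_of_le hℓ.le]
      exact hg.integrableOn_Icc)
  rw [uIcc_of_le hℓ.le] at h
  exact h

theorem ext_cont (ℓ : ℝ) (hℓ : 0 < ℓ) (g : ℝ → ℝ) (hg : ContinuousOn g (Icc 0 ℓ)) :
    Continuous (fun r => g (max 0 (min r ℓ))) :=
  hg.comp_continuous (by fun_prop) fun r => ⟨le_max_left _ _, max_le hℓ.le (min_le_right _ _)⟩

theorem ext_eq (ℓ : ℝ) (x : E 3) (hx : x ∈ Bl ℓ) : max 0 (min ‖x‖ ℓ) = ‖x‖ := by
  rw [min_eq_left (le_of_lt hx), max_eq_right (norm_nonneg x)]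

theorem rf_meas (ℓ : ℝ) (hℓ : 0 < ℓ) (c : ℝ → ℝ) (hc : ContinuousOn c (Icc 0 ℓ)) :
    AEStronglyMeasurable (rf c) (vol (Bl ℓ)) := by
  have h1 : Measurable (fun x : E 3 => c (max 0 (min ‖x‖ ℓ)) / ‖x‖) :=
    ((ext_cont ℓ hℓ c hc).measurable.comp measurable_norm).div measurable_norm
  refine h1.aestronglyMeasurable.congr ?_
  refine ae_restrict_of_forall_mem (bl_meas ℓ) fun x hx => ?_
  show c (max 0 (min ‖x‖ ℓ)) / ‖x‖ = c ‖x‖ / ‖x‖
  rw [ext_eq ℓ x hx]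

theorem rg_meas (ℓ : ℝ) (hℓ : 0 < ℓ) (f g : ℝ → ℝ) (hf : ContinuousOn f (Icc 0 ℓ))
    (hg : ContinuousOn g (Icc 0 ℓ)) : AEStronglyMeasurable (rg f g) (vol (Bl ℓ)) := by
  have hF : Measurable (fun x : E 3 => f (max 0 (min ‖x‖ ℓ))) :=
    (ext_cont ℓ hℓ f hf).measurable.comp measurable_norm
  have hG : Measurable (fun x : E 3 => g (max 0 (min ‖x‖ ℓ))) :=
    (ext_cont ℓ hℓ g hg).measurable.comp measurable_norm
  have h1 : Measurable (fun x : E 3 => ((g (max 0 (min ‖x‖ ℓ)) -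
      f (max 0 (min ‖x‖ ℓ)) / ‖x‖) / ‖x‖ ^ 2) • x) :=
    ((hG.sub (hF.div measurable_norm)).div (measurable_norm.pow_const 2)).smul measurable_id
  refine h1.aestronglyMeasurable.congr ?_
  refine ae_restrict_of_forall_mem (bl_meas ℓ) fun x hx => ?_
  show ((g (max 0 (min ‖x‖ ℓ)) - f (max 0 (min ‖x‖ ℓ)) / ‖x‖) / ‖x‖ ^ 2) • x =
    ((g ‖x‖ - f ‖x‖ / ‖x‖) / ‖x‖ ^ 2) • x
  rw [ext_eq ℓ x hx]

theorem rg_bd (ℓ G : ℝ) (f g : ℝ → ℝ) (hG : ∀ r ∈ Icc 0 ℓ, |g r| ≤ G)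
    (hF : ∀ r ∈ Icc 0 ℓ, |f r| ≤ G * r) (x : E 3) (hx : x ∈ Bl ℓ) (hx0 : x ≠ 0) :
    ‖rg f g x‖ ≤ 2 * G * ‖x‖⁻¹ := by
  have h0 : 0 < ‖x‖ := norm_pos_iff.2 hx0
  have hm : ‖x‖ ∈ Icc 0 ℓ := ⟨h0.le, le_of_lt hx⟩
  have h1 : |f ‖x‖ / ‖x‖| ≤ G := by
    rw [abs_div, abs_of_pos h0, div_le_iff₀ h0]
    exact hF _ hm
  have h2 : |g ‖x‖ - f ‖x‖ / ‖x‖| ≤ 2 * G := by
    have := abs_sub (g ‖x‖) (f ‖x‖ / ‖x‖)
    linarith [hG _ hm]
  show ‖((g ‖x‖ - f ‖x‖ / ‖x‖) / ‖x‖ ^ 2) • x‖ ≤ 2 * G * ‖x‖⁻¹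
  rw [norm_smul, Real.norm_eq_abs, abs_div, abs_of_pos (pow_pos h0 2)]
  have h3 : |g ‖x‖ - f ‖x‖ / ‖x‖| / ‖x‖ ^ 2 * ‖x‖ = |g ‖x‖ - f ‖x‖ / ‖x‖| * ‖x‖⁻¹ := by
    field_simp
  rw [h3]
  exact mul_le_mul_of_nonneg_right h2 (inv_nonneg.2 h0.le)

/-- Row LPB. -/
theorem lpb (h1 : LpaStmt) (_ : BinStmt) : LpbStmt := by
  intro ℓ f g c hℓ hc hf hg ψ hψ
  have hgc : ContinuousOn g (Icc 0 ℓ) := by
    have h := (prim ℓ hℓ c hc).const_add (g 0)
    exact h.congr fun r hr => hg r hr.1 hr.2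
  have hfc : ContinuousOn f (Icc 0 ℓ) :=
    (prim ℓ hℓ g hgc).congr fun r hr => hf r hr.1 hr.2
  obtain ⟨G, hG⟩ := isCompact_Icc.exists_bound_of_continuousOn hgc
  obtain ⟨K, hK⟩ := isCompact_Icc.exists_bound_of_continuousOn hc
  have hG0 : 0 ≤ G := (norm_nonneg _).trans (hG 0 ⟨le_rfl, hℓ.le⟩)
  have hK0 : 0 ≤ K := (norm_nonneg _).trans (hK 0 ⟨le_rfl, hℓ.le⟩)
  have hF : ∀ r ∈ Icc 0 ℓ, |f r| ≤ G * r := by
    intro r hr
    rw [hf r hr.1 hr.2]
    have h := intervalIntegral.norm_integral_le_of_norm_le_const (a := 0) (b := r) (C := G)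
      (f := g) fun y hy => by
        rw [uIoc_of_le hr.1] at hy
        exact hG y ⟨hy.1.le, hy.2.trans hr.2⟩
    rw [sub_zero, abs_of_nonneg hr.1] at h
    exact h
  obtain ⟨M, hM0, hM⟩ := th_bd
  obtain ⟨D, hD⟩ := (hψ.2.1.fderiv ℝ).exists_bound_of_continuous
    (hψ.1.continuous_fderiv (by simp))
  obtain ⟨P, hP⟩ := hψ.2.1.exists_bound_of_continuous hψ.1.continuous
  have hD0 : 0 ≤ D := (norm_nonneg _).trans (hD 0)
  have hP0 : 0 ≤ P := (norm_nonneg _).trans (hP 0)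
  have hT : ∀ n : ℕ, Test (Bl ℓ) (fun y => chi n y * ψ y) := by
    intro n
    refine ⟨(chi_smooth n).mul hψ.1, hψ.2.1.mul_left, ?_⟩
    exact (tsupport_mul_subset_right (f := chi n) (g := ψ)).trans hψ.2.2
  have h0 : ∀ n : ℕ, (0 : E 3) ∉ tsupport (fun y => chi n y * ψ y) := by
    intro n
    rw [notMem_tsupport_iff_eventuallyEq]
    have hcn : Continuous (fun y : E 3 => (n : ℝ) ^ 2 * ‖y‖ ^ 2) := by fun_prop
    have hop : {y : E 3 | (n : ℝ) ^ 2 * ‖y‖ ^ 2 < 1} ∈ 𝓝 (0 : E 3) :=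
      (isOpen_lt hcn continuous_const).mem_nhds (by simp)
    filter_upwards [hop] with y hy
    show th ((n : ℝ) ^ 2 * ‖y‖ ^ 2) * ψ y = 0
    rw [th_zero (le_of_lt hy), zero_mul]
  have hL : ∀ n : ℕ, intg (Bl ℓ) (fun x => ⟪rg f g x, gradient (fun y => chi n y * ψ y) x⟫_ℝ) =
      -intg (Bl ℓ) (fun x => rf c x * (chi n x * ψ x)) := fun n =>
    h1 ℓ f g c hℓ hc hf hg _ (hT n) (h0 n)
  have hev : ∀ x : E 3, x ≠ 0 → ∀ᶠ n : ℕ in atTop, 2 < (n : ℝ) ^ 2 * ‖x‖ ^ 2 := by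
    intro x hx
    have hx0 : 0 < ‖x‖ ^ 2 := pow_pos (norm_pos_iff.2 hx) 2
    have ht : Tendsto (fun n : ℕ => (n : ℝ) ^ 2 * ‖x‖ ^ 2) atTop atTop :=
      ((tendsto_pow_atTop (two_ne_zero)).comp tendsto_natCast_atTop_atTop).atTop_mul_const hx0
    exact ht.eventually_gt_atTop 2
  -- the left side
  have e1 : Tendsto (fun n : ℕ => intg (Bl ℓ)
      (fun x => ⟪rg f g x, gradient (fun y => chi n y * ψ y) x⟫_ℝ)) atTop
      (𝓝 (intg (Bl ℓ) (fun x => ⟪rg f g x, gradient ψ x⟫_ℝ))) := by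
    refine tendsto_integral_of_dominated_convergence
      (fun x : E 3 => ((D * ℓ + P * (4 * M)) * (2 * G)) * (‖x‖ ^ 2)⁻¹) ?_ (int_sq ℓ _) ?_ ?_
    · intro n
      refine (rg_meas ℓ hℓ f g hfc hgc).inner (Continuous.aestronglyMeasurable ?_)
      exact (InnerProductSpace.toDual ℝ (E 3)).symm.continuous.comp
        ((hT n).1.continuous_fderiv (by simp))
    · intro n
      refine ae_restrict_of_forall_mem (bl_meas ℓ) fun x hx => ?_
      rw [inner_grad]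
      by_cases hx0 : x = 0
      · have h2 : rg f g x = 0 := by
          show ((g ‖x‖ - f ‖x‖ / ‖x‖) / ‖x‖ ^ 2) • x = 0
          rw [hx0, smul_zero]
        rw [h2, map_zero, norm_zero]
        positivity
      · have hn : 0 < ‖x‖ := norm_pos_iff.2 hx0
        have h2 := rg_bd ℓ G f g hG hF x hx hx0
        have h3 : ‖fderiv ℝ (fun y => chi n y * ψ y) x‖ ≤ D + P * (4 * M * ‖x‖⁻¹) := by
          have h4 : fderiv ℝ (fun y => chi n y * ψ y) x =
              chi n x • fderiv ℝ ψ x + ψ x • fderiv ℝ (chi n) x :=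
            fderiv_fun_mul (chi_fd n x).differentiableAt
              ((hψ.1.differentiable (by simp)) x)
          rw [h4]
          refine (norm_add_le _ _).trans ?_
          rw [norm_smul, norm_smul]
          have h5 : ‖chi n x‖ * ‖fderiv ℝ ψ x‖ ≤ 1 * D :=
            mul_le_mul (th_abs _) (hD x) (norm_nonneg _) zero_le_one
          have h6 : ‖ψ x‖ * ‖fderiv ℝ (chi n) x‖ ≤ P * (4 * M * ‖x‖⁻¹) :=
            mul_le_mul (hP x) (chi_bd M hM0 hM n x hx0) (norm_nonneg _) hP0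
          linarith
        have h7 : D ≤ D * ℓ * ‖x‖⁻¹ := by
          rw [← div_eq_mul_inv, le_div_iff₀ hn]
          exact mul_le_mul_of_nonneg_left (le_of_lt hx) hD0
        calc ‖fderiv ℝ (fun y => chi n y * ψ y) x (rg f g x)‖
            ≤ ‖fderiv ℝ (fun y => chi n y * ψ y) x‖ * ‖rg f g x‖ :=
              ContinuousLinearMap.le_opNorm _ _
          _ ≤ (D * ℓ * ‖x‖⁻¹ + P * (4 * M * ‖x‖⁻¹)) * (2 * G * ‖x‖⁻¹) := by
              refine mul_le_mul (h3.trans (by linarith)) h2 (norm_nonneg _) ?_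
              positivity
          _ = ((D * ℓ + P * (4 * M)) * (2 * G)) * (‖x‖ ^ 2)⁻¹ := by
              field_simp
    · refine ae_restrict_of_forall_mem (bl_meas ℓ) fun x hx => ?_
      simp only [inner_grad]
      by_cases hx0 : x = 0
      · have h2 : rg f g x = 0 := by
          show ((g ‖x‖ - f ‖x‖ / ‖x‖) / ‖x‖ ^ 2) • x = 0
          rw [hx0, smul_zero]
        simp only [h2, map_zero]
        exact tendsto_const_nhds
      · refine tendsto_const_nhds.congr' ?_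
        filter_upwards [hev x hx0] with n hn
        have hcn : Continuous (fun y : E 3 => (n : ℝ) ^ 2 * ‖y‖ ^ 2) := by fun_prop
        have h3 : (fun y => chi n y * ψ y) =ᶠ[𝓝 x] ψ := by
          filter_upwards [(isOpen_lt continuous_const hcn).mem_nhds hn] with y hy
          show th ((n : ℝ) ^ 2 * ‖y‖ ^ 2) * ψ y = ψ y
          rw [th_one (le_of_lt hy), one_mul]
        rw [h3.fderiv_eq]
  have e2 : Tendsto (fun n : ℕ => intg (Bl ℓ) (fun x => rf c x * (chi n x * ψ x))) atTop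
      (𝓝 (intg (Bl ℓ) (fun x => rf c x * ψ x))) := by
    refine tendsto_integral_of_dominated_convergence
      (fun x : E 3 => (K * P * ℓ) * (‖x‖ ^ 2)⁻¹) ?_ (int_sq ℓ _) ?_ ?_
    · intro n
      exact (rf_meas ℓ hℓ c hc).mul
        (((chi_smooth n).continuous.mul hψ.1.continuous).aestronglyMeasurable)
    · intro n
      refine ae_restrict_of_forall_mem (bl_meas ℓ) fun x hx => ?_
      by_cases hx0 : x = 0
      · have h2 : rf c x = 0 := by
          show c ‖x‖ / ‖x‖ = 0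
          rw [hx0, norm_zero, div_zero]
        rw [h2, zero_mul, norm_zero]
        positivity
      · have hn : 0 < ‖x‖ := norm_pos_iff.2 hx0
        have h2 : ‖rf c x‖ ≤ K * ‖x‖⁻¹ := by
          show ‖c ‖x‖ / ‖x‖‖ ≤ K * ‖x‖⁻¹
          rw [norm_div, norm_norm, div_eq_mul_inv]
          exact mul_le_mul_of_nonneg_right (hK _ ⟨hn.le, le_of_lt hx⟩) (inv_nonneg.2 hn.le)
        have h3 : ‖chi n x * ψ x‖ ≤ P := by
          rw [norm_mul]
          have h5 : ‖chi n x‖ * ‖ψ x‖ ≤ 1 * P :=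
            mul_le_mul (th_abs _) (hP x) (norm_nonneg _) zero_le_one
          linarith
        rw [norm_mul]
        have h7 : (1 : ℝ) ≤ ℓ * ‖x‖⁻¹ := by
          rw [← div_eq_mul_inv, le_div_iff₀ hn]
          linarith [le_of_lt (show ‖x‖ < ℓ from hx)]
        calc ‖rf c x‖ * ‖chi n x * ψ x‖ ≤ (K * ‖x‖⁻¹) * P :=
              mul_le_mul h2 h3 (norm_nonneg _) (by positivity)
          _ ≤ (K * ‖x‖⁻¹) * P * (ℓ * ‖x‖⁻¹) :=
              le_mul_of_one_le_right (by positivity) h7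
          _ = (K * P * ℓ) * (‖x‖ ^ 2)⁻¹ := by
              field_simp
    · refine ae_restrict_of_forall_mem (bl_meas ℓ) fun x hx => ?_
      by_cases hx0 : x = 0
      · have h2 : rf c x = 0 := by
          show c ‖x‖ / ‖x‖ = 0
          rw [hx0, norm_zero, div_zero]
        simp only [h2, zero_mul]
        exact tendsto_const_nhds
      · refine tendsto_const_nhds.congr' ?_
        filter_upwards [hev x hx0] with n hn
        show rf c x * ψ x = rf c x * (th ((n : ℝ) ^ 2 * ‖x‖ ^ 2) * ψ x)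
        rw [th_one (le_of_lt hn), one_mul]
  exact tendsto_nhds_unique (e1.congr hL) e2.neg

end Pool.Agent.R3B.H52
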